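import Pool.Agent.Results.MP_606be1_nt.Truncated

/-! The truncated count for `π` and `e`. -/

namespace Pool.Agent.Lib.MP_606be1_nt.TR

open Real Set Filter Asymptotics

theorem piE (δ : ℝ → ℝ) (T k : ℝ → ℕ)
    (h : ∀ᶠ x in atTop, 0 < δ x ∧ δ x ≤ 1 ∧ x ≤ π ^ T x ∧ T x ≤ tw (k x))
    (hδ : (fun x => log (δ x)) =o[atTop] fun x => log x ^ 2)
    (hk : (fun x => (k x : ℝ)) =o[atTop] fun x => log x ^ 2) :
    IsEquivalent atTop (fun x : ℝ => (({p : ℕ × ℕ | p.1 ≤ T x ∧ δ x ≤ |π ^ p.1 - exp 1 ^ p.2| ∧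
      |π ^ p.1 - exp 1 ^ p.2| ≤ x}.ncard : ℕ) : ℝ)) (fun x => log x ^ 2 / log π) := by
  have h1 : 1 < π := by linarith [pi_gt_three]
  have h2 : 1 < exp 1 := one_lt_exp_iff.2 one_pos
  have na : ‖(π : ℂ)‖ = π := by rw [Complex.norm_real, Real.norm_of_nonneg pi_pos.le]
  have nb : ‖((exp 1 : ℝ) : ℂ)‖ = exp 1 := by
    rw [Complex.norm_real, Real.norm_of_nonneg (exp_pos 1).le]
  obtain ⟨C, hC⟩ := Pool.Agent.Results.MP_606be1_nt.Truncated.result (π : ℂ) ((exp 1 : ℝ) : ℂ)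
    (by rwa [na]) (by rwa [nb])
  have e : ∀ n m : ℕ, ‖(π : ℂ) ^ n - ((exp 1 : ℝ) : ℂ) ^ m‖ = |π ^ n - exp 1 ^ m| := fun n m => by
    rw [← Real.norm_eq_abs, ← Complex.norm_real]
    simp only [Complex.ofReal_sub, Complex.ofReal_pow]
  simp only [na, nb, e, log_exp, mul_one] at hC
  have ha := log_pos h1
  have hO : (fun x : ℝ => log x ^ 2) =O[atTop] fun x => log x ^ 2 / log π := by
    simpa [div_eq_inv_mul] using
      (isBigO_refl (fun x : ℝ => log x ^ 2) atTop).const_mul_right (c := (log π)⁻¹) (by positivity)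
  refine IsLittleO.trans_isBigO ?_ hO
  refine IsBigO.trans_isLittleO (IsBigO.of_bound 1 ?_)
    ((((lin_isLittleO 1 0).sub hδ).add hk).const_mul_left C)
  filter_upwards [h, eventually_ge_atTop 3] with x ⟨g1, g2, g3, g4⟩ hx
  obtain ⟨N, k1, k2⟩ := hC x (δ x) (T x) (k x) hx g1 g2 g3 g4
  rw [log_div (by linarith) g1.ne'] at k2
  rw [one_mul, Real.norm_eq_abs, Real.norm_eq_abs, one_mul, add_zero]
  simp only [Pi.sub_apply, ncard_def, k1, ENat.toNat_natCast]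
  exact k2.trans (le_abs_self _)

end Pool.Agent.Lib.MP_606be1_nt.TR
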