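import Pool.Agent.Lib.MP_606be1_nt.CX.Main

/-! The count with small differences and very large exponents left out, with no hypothesis. -/

namespace Pool.Agent.Lib.MP_606be1_nt.TR

open Real Set Filter TH CX

/-- the counted pairs -/
def Sd (α β : ℂ) (T : ℕ) (δ x : ℝ) : Set (ℕ × ℕ) :=
  {p | p.1 ≤ T ∧ δ ≤ ‖α ^ p.1 - β ^ p.2‖ ∧ ‖α ^ p.1 - β ^ p.2‖ ≤ x}

lemma strip' {a b V : ℝ} (hb : 0 < b) (hV : 0 ≤ V) (A : Finset ℕ) {U : Set (ℕ × ℕ)}
    (hU : ∀ p ∈ U, p.1 ∈ A ∧ |p.1 * a - p.2 * b| ≤ V) :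
    U.Finite ∧ (U.ncard : ℝ) ≤ A.card * (2 * V / b + 1) := by
  classical
  set K := ⌊2 * V / b⌋₊ + 1 with hK
  set g : ℕ × ℕ → ℕ × ℕ := fun p => (p.1, ⌈(p.1 * a - V) / b⌉₊ + p.2) with hg
  have hsub : U ⊆ (((A ×ˢ Finset.range K).image g : Finset (ℕ × ℕ)) : Set (ℕ × ℕ)) := by
    rintro ⟨n, m⟩ h0
    obtain ⟨h1, h2⟩ := hU _ h0
    obtain ⟨h3, h4⟩ := abs_le.1 h2
    simp only at h1 h3 h4
    have h5 : ⌈(n * a - V) / b⌉₊ ≤ m := Nat.ceil_le.2 (by rw [div_le_iff₀ hb]; linarith)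
    simp only [Finset.coe_product, Finset.coe_range, Finset.coe_image, mem_prod, mem_Iio,
      mem_image]
    refine ⟨(n, m - ⌈(n * a - V) / b⌉₊), ⟨h1, ?_⟩, ?_⟩
    · refine Nat.lt_succ_of_le (Nat.le_floor ?_)
      have h6 := Nat.le_ceil ((n * a - V) / b)
      rw [div_le_iff₀ hb] at h6
      rw [Nat.cast_sub h5, le_div_iff₀ hb]
      linarith
    · simp only [hg, Prod.mk.injEq, true_and]
      omega
  refine ⟨(Finset.finite_toSet _).subset hsub, ?_⟩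
  have h1 := ncard_le_ncard hsub (Finset.finite_toSet _)
  rw [ncard_coe_finset] at h1
  have h2 : U.ncard ≤ A.card * K := h1.trans (Finset.card_image_le.trans (by simp))
  have h3 : (K : ℝ) ≤ 2 * V / b + 1 := by
    rw [hK]; push_cast; linarith [Nat.floor_le (show 0 ≤ 2 * V / b by positivity)]
  have h4 : (U.ncard : ℝ) ≤ A.card * K := by exact_mod_cast h2
  exact h4.trans (by gcongr)

section
variable {α β : ℂ} (hα : 1 < ‖α‖) (hβ : 1 < ‖β‖)
include hα hβ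

omit hα in
/-- two very good approximations are proportional -/
lemma par {n m n' m' : ℕ} {l l' : ℂ} (h : Complex.exp l * β ^ m = α ^ n)
    (h' : Complex.exp l' * β ^ m' = α ^ n') (hs : n' * ‖l‖ + n * ‖l'‖ < min (log ‖β‖) 1) :
    (n : ℂ) * l' = n' * l ∧ m' * n = m * n' := by
  have hb := log_pos hβ
  have b0 : β ≠ 0 := norm_pos_iff.1 (by linarith)
  set μ : ℂ := n * l' - n' * l with hμ
  have e1 : ‖μ‖ < min (log ‖β‖) 1 := by
    refine ((norm_sub_le _ _).trans ?_).trans_lt hs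
    rw [norm_mul, norm_mul, Complex.norm_natCast, Complex.norm_natCast, add_comm]
  have e2 : Complex.exp μ * β ^ (m' * n) = β ^ (m * n') := by
    refine mul_left_cancel₀ (pow_ne_zero n' (Complex.exp_ne_zero l)) ?_
    rw [pow_mul β m, ← mul_pow, h, ← pow_mul, mul_comm n n', pow_mul α, ← h', hμ,
      Complex.exp_sub, Complex.exp_nat_mul, Complex.exp_nat_mul, mul_pow, pow_mul]
    field_simp
  have e3 : m' * n = m * n' := by
    have e := congrArg (fun z => log ‖z‖) e2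
    simp only [norm_mul, norm_pow, Complex.norm_exp] at e
    rw [log_mul (exp_pos _).ne' (by positivity), log_exp, log_pow, log_pow] at e
    have e4 := abs_lt.1 (((Complex.abs_re_le_norm μ).trans_lt e1).trans_le (min_le_left _ _))
    have e5 : ((m * n' : ℕ) : ℝ) < (m' * n : ℕ) + 1 :=
      lt_of_mul_lt_mul_right (a := log ‖β‖) (by linarith [e4.2]) hb.le
    have e6 : ((m' * n : ℕ) : ℝ) < (m * n' : ℕ) + 1 :=
      lt_of_mul_lt_mul_right (a := log ‖β‖) (by linarith [e4.1]) hb.le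
    have e7 : m * n' < m' * n + 1 := by exact_mod_cast e5
    have e8 : m' * n < m * n' + 1 := by exact_mod_cast e6
    omega
  refine ⟨sub_eq_zero.1 (?_ : μ = 0), e3⟩
  rw [e3, mul_left_eq_self₀, or_iff_left (pow_ne_zero _ b0), Complex.exp_eq_one_iff] at e2
  obtain ⟨k, hk⟩ := e2
  have e5 := e1.trans_le (min_le_right _ _)
  rw [hk] at e5 ⊢
  by_contra hk0
  have e6 : (1 : ℝ) ≤ |(k : ℝ)| := by
    exact_mod_cast Int.one_le_abs (by rintro rfl; simp at hk0)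
  simp only [norm_mul, Complex.norm_intCast, Complex.norm_I, Complex.norm_real,
    Complex.norm_ofNat, Real.norm_eq_abs, abs_of_pos pi_pos] at e5
  nlinarith [pi_gt_three]

/-- proportional solutions are close to each other -/
lemma ray {δ x : ℝ} {n m n' m' : ℕ} (h1 : δ ≤ ‖α ^ n - β ^ m‖) (h2 : (n, m) ∈ Tc α β x)
    (h3 : (n', m') ∈ Tc α β x) (h4 : 2 * x ≤ ‖α‖ ^ n) (h5 : 1 ≤ n) (h6 : n ≤ n')
    (e : (n : ℂ) * Complex.log (α ^ n' / β ^ m') = n' * Complex.log (α ^ n / β ^ m)) :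
    δ * ‖α‖ ^ n' ≤ 4 * x * ‖α‖ ^ n := by
  have p0 : 0 < ‖α‖ ^ n := by positivity
  have v1 := val_le hα hβ h2 h4
  have v2 := val_le hα hβ h3 (h4.trans (pow_le_pow_right₀ hα.le h6))
  have v3 := h1.trans (dist_val hα hβ (le_of_mul_le_mul_right (by linarith) p0))
  have e1 : (n : ℝ) * val α β n' m' = n' * val α β n m := by
    simpa only [norm_mul, Complex.norm_natCast, val] using congrArg norm e
  have n0 : (0 : ℝ) < n := by exact_mod_cast h5
  have e2 : (n : ℝ) * val α β n m ≤ n' * val α β n m :=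
    mul_le_mul_of_nonneg_right (by exact_mod_cast h6) (norm_nonneg _)
  have e3 : val α β n m ≤ val α β n' m' := le_of_mul_le_mul_left (by linarith) n0
  calc δ * ‖α‖ ^ n' ≤ 2 * val α β n' m' * ‖α‖ ^ n * ‖α‖ ^ n' := by
        gcongr
        exact v3.trans (by gcongr)
    _ = 2 * (val α β n' m' * ‖α‖ ^ n') * ‖α‖ ^ n := by ring
    _ ≤ 2 * (2 * x) * ‖α‖ ^ n := by gcongr
    _ = _ := by ring

/-- beyond the first far solution and its ray, solutions are exponentially spaced -/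
lemma three {δ x : ℝ} {T n1 m1 n2 m2 n3 m3 : ℕ} (s1 : (n1, m1) ∈ Sd α β T δ x)
    (s2 : (n2, m2) ∈ Sd α β T δ x) (s3 : (n3, m3) ∈ Sd α β T δ x) (h0 : 1 ≤ n1) (h12 : n1 ≤ n2)
    (h23 : n2 < n3) (hb : 2 * x ≤ ‖α‖ ^ n1) (hD : 4 * x * ‖α‖ ^ n1 < δ * ‖α‖ ^ n2)
    (far : ∀ d : ℕ, δ * ‖α‖ ^ d ≤ 4 * x → (d + n1) * (2 * x) < min (log ‖β‖) 1 * ‖α‖ ^ n1) :
    min (log ‖β‖) 1 * ‖α‖ ^ n2 ≤ 4 * x * n3 := by
  have b0 : β ≠ 0 := norm_pos_iff.1 (by linarith)
  have p1 : 0 < ‖α‖ ^ n1 := by positivity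
  have p2 : 0 < ‖α‖ ^ n2 := by positivity
  have q12 : ‖α‖ ^ n1 ≤ ‖α‖ ^ n2 := pow_le_pow_right₀ hα.le h12
  have q23 : ‖α‖ ^ n2 ≤ ‖α‖ ^ n3 := pow_le_pow_right₀ hα.le h23.le
  have t1 : (n1, m1) ∈ Tc α β x := s1.2.2
  have t2 : (n2, m2) ∈ Tc α β x := s2.2.2
  have t3 : (n3, m3) ∈ Tc α β x := s3.2.2
  have v1 := val_le hα hβ t1 hb
  have v2 := val_le hα hβ t2 (hb.trans q12)
  have v3 : val α β n3 m3 * ‖α‖ ^ n2 ≤ 2 * x :=
    (mul_le_mul_of_nonneg_left q23 (norm_nonneg _)).trans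
      (val_le hα hβ t3 ((hb.trans q12).trans q23))
  have w3 : 0 ≤ val α β n3 m3 := norm_nonneg _
  by_contra! hc
  have nn : (n2 : ℝ) ≤ n3 := by exact_mod_cast h23.le
  obtain ⟨e1, e2⟩ := par hβ (exp_log hα hβ n2 m2) (exp_log hα hβ n3 m3) (by
    change n3 * val α β n2 m2 + n2 * val α β n3 m3 < _
    have f1 : (n2 : ℝ) * val α β n3 m3 ≤ n3 * val α β n3 m3 := by gcongr
    have f2 : (n3 : ℝ) * (val α β n2 m2 * ‖α‖ ^ n2) + n3 * (val α β n3 m3 * ‖α‖ ^ n2) ≤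
        n3 * (2 * x) + n3 * (2 * x) := by gcongr
    have f3 := mul_le_mul_of_nonneg_right f1 p2.le
    exact lt_of_mul_lt_mul_right (by linarith) p2.le)
  have r23 := ray hα hβ s2.2.1 t2 t3 (hb.trans q12) (h0.trans h12) h23.le e1
  obtain ⟨d, rfl⟩ := Nat.exists_eq_add_of_le h23.le
  obtain ⟨e, rfl⟩ : ∃ e, m3 = m2 + e := Nat.exists_eq_add_of_le (by
    by_contra! hm
    nlinarith [Nat.zero_le m3])
  have hd : δ * ‖α‖ ^ d ≤ 4 * x := by
    rw [pow_add] at r23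
    exact le_of_mul_le_mul_right (by linarith) p2
  set l1 := Complex.log (α ^ n1 / β ^ m1) with hl1
  set l2 := Complex.log (α ^ n2 / β ^ m2) with hl2
  set l3 := Complex.log (α ^ (n2 + d) / β ^ (m2 + e)) with hl3
  have x2 : Complex.exp l2 * β ^ m2 = α ^ n2 := exp_log hα hβ _ _
  have x3 : Complex.exp l3 * β ^ (m2 + e) = α ^ (n2 + d) := exp_log hα hβ _ _
  have xd : Complex.exp (l3 - l2) * β ^ e = α ^ d := by
    refine mul_left_cancel₀ (mul_ne_zero (Complex.exp_ne_zero l2) (pow_ne_zero m2 b0)) ?_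
    rw [x2, ← pow_add α, ← x3, ← x2, Complex.exp_sub, pow_add]
    field_simp
  have e5 : ‖l3 - l2‖ ≤ val α β (n2 + d) (m2 + e) := by
    have e6 : ((n2 + d : ℕ) : ℂ) * (l3 - l2) = d * l3 := by
      push_cast at e1 ⊢
      linear_combination e1
    have e7 := congrArg norm e6
    rw [norm_mul, norm_mul, Complex.norm_natCast, Complex.norm_natCast] at e7
    have e8 : (0 : ℝ) < (n2 + d : ℕ) := by exact_mod_cast (by omega : 0 < n2 + d)
    have e9 : (d : ℝ) * ‖l3‖ ≤ (n2 + d : ℕ) * ‖l3‖ := by gcongr; omega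
    exact le_of_mul_le_mul_left (e7.le.trans e9) e8
  obtain ⟨g1, -⟩ := par hβ xd (exp_log hα hβ n1 m1) (by
    change n1 * ‖l3 - l2‖ + d * val α β n1 m1 < _
    have f1 : ‖l3 - l2‖ * ‖α‖ ^ n1 ≤ 2 * x := (mul_le_mul e5 q12 p1.le w3).trans v3
    have f2 : (n1 : ℝ) * (‖l3 - l2‖ * ‖α‖ ^ n1) + d * (val α β n1 m1 * ‖α‖ ^ n1) ≤
        n1 * (2 * x) + d * (2 * x) := by gcongr
    exact lt_of_mul_lt_mul_right (by linarith [far d hd]) p1.le)
  have g2 : (n1 : ℂ) * l2 = n2 * l1 := by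
    have d0 : (d : ℂ) ≠ 0 := by exact_mod_cast (by omega : d ≠ 0)
    refine mul_left_cancel₀ d0 ?_
    rw [← hl1] at g1
    push_cast at e1
    linear_combination (-(n2 : ℂ)) * g1 - (n1 : ℂ) * e1
  exact absurd (ray hα hβ s1.2.1 t1 t2 hb h0 h12 g2) (not_le.2 hD)

/-- the number of exponents of solutions outside the box -/
lemma far_card {δ x : ℝ} (hx : 1 ≤ x) (d0 : 0 < δ) (d1 : δ ≤ 1) {T k : ℕ} (hT : T ≤ tw k)
    (A : Finset ℕ) (hA : ∀ n ∈ A, ∃ m, (n, m) ∈ Sd α β T δ x) :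
    (A.card : ℝ) ≤ 3 * (log (4 * x / (δ * min (log ‖β‖) 1)) / log ‖α‖)
      + (16 / log ‖α‖ ^ 3 + 9 / log ‖α‖ ^ 2 + 5) + 2 * k := by
  classical
  have ha := log_pos hα
  set c := min (log ‖β‖) 1 with hc
  have c0 : 0 < c := lt_min (log_pos hβ) one_pos
  have c1 : c ≤ 1 := min_le_right _ _
  set y := 4 * x / (δ * c) with hy
  have y0 : y * (δ * c) = 4 * x := by rw [hy]; field_simp
  have yp : 0 < y := by positivity
  have y1 : 4 * x ≤ y * δ := by nlinarith [mul_pos yp d0]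
  have y2 : 4 * x ≤ y * c := by nlinarith [mul_pos yp c0]
  have y3 : 4 * x ≤ y := by nlinarith
  clear_value y
  have y4 : 1 ≤ y := by linarith
  set D := log y / log ‖α‖ with hD
  have D0 : 0 ≤ D := div_nonneg (log_nonneg y4) ha.le
  have hd : ∀ d : ℕ, δ * ‖α‖ ^ d ≤ 4 * x → d < ⌊D⌋₊ + 1 := fun d h =>
    (pow_le_iff hα y4 d).1 (le_of_mul_le_mul_left (by linarith) d0)
  have p2 : 0 ≤ 16 / log ‖α‖ ^ 3 := by positivity
  have p3 : 0 ≤ 9 / log ‖α‖ ^ 2 := by positivity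
  set N := ⌈2 * D + 16 / log ‖α‖ ^ 3 + 9 / log ‖α‖ ^ 2 + 1⌉₊ with hN
  have hfar : ∀ n : ℕ, N ≤ n → ∃ s : ℝ, s = exp (log ‖α‖ * n / 2) ∧ ‖α‖ ^ n = s * s ∧ y ≤ s ∧
      n < s ∧ D ≤ n ∧ 1 ≤ n ∧ 16 / log ‖α‖ ^ 3 ≤ n := fun n hn => by
    have h1 := Nat.ceil_le.1 hn
    refine ⟨_, rfl, by rw [pow_eq_exp hα, ← exp_add]; ring_nf, ?_, ?_, by linarith,
      by exact_mod_cast (by linarith : (1 : ℝ) ≤ n), by linarith⟩
    · rw [← exp_log yp]
      refine exp_le_exp.2 ?_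
      have : D ≤ n / 2 := by linarith
      rw [hD, div_le_iff₀ ha] at this
      linarith
    · have e1 := quadratic_le_exp_of_nonneg (x := log ‖α‖ * n / 2) (by positivity)
      have e2 : 9 / log ‖α‖ ^ 2 ≤ n := by linarith
      rw [div_le_iff₀ (by positivity)] at e2
      have e3 : (n : ℝ) * 9 ≤ n * (n * log ‖α‖ ^ 2) := by gcongr
      have e4 : 0 ≤ log ‖α‖ * n / 2 := by positivity
      have e5 : (0 : ℝ) ≤ n := Nat.cast_nonneg n
      linarith
  have key : (A \ Finset.range N).card ≤ ⌊D⌋₊ + 1 + 2 * (k + 1) := by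
    set A1 := A \ Finset.range N with hA1
    have mem : ∀ n ∈ A1, n ∈ A ∧ N ≤ n := fun n hn => by simpa [hA1] using hn
    rcases A1.eq_empty_or_nonempty with h | hne
    · simp [h]
    obtain ⟨n1, hn1, hmin⟩ : ∃ n1 ∈ A1, ∀ n ∈ A1, n1 ≤ n :=
      ⟨A1.min' hne, A1.min'_mem hne, A1.min'_le⟩
    obtain ⟨a1, a2⟩ := mem n1 hn1
    obtain ⟨m1, s1⟩ := hA n1 a1
    obtain ⟨s, -, f1, f2, f3, f4, f5, -⟩ := hfar n1 a2
    set S := A1.filter fun n => 4 * x * ‖α‖ ^ n1 < δ * ‖α‖ ^ n with hS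
    have hsub : A1 ⊆ Finset.Ico n1 (n1 + (⌊D⌋₊ + 1)) ∪ S := fun n hn => by
      obtain ⟨d, rfl⟩ := Nat.exists_eq_add_of_le (hmin n hn)
      rw [Finset.mem_union, Finset.mem_Ico, hS, Finset.mem_filter]
      rcases lt_or_ge (4 * x * ‖α‖ ^ n1) (δ * ‖α‖ ^ (n1 + d)) with h | h
      · exact Or.inr ⟨hn, h⟩
      · rw [pow_add] at h
        have := hd d (le_of_mul_le_mul_right (a := ‖α‖ ^ n1) (by linarith) (by positivity))
        exact Or.inl ⟨by omega, by omega⟩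
    have hc2 : S.card ≤ 2 * (k + 1) := by
      by_contra hh
      obtain ⟨j, hj, hj'⟩ := chain' ha (k + 1) S (fun j hj => by
        obtain ⟨_, -, -, -, -, -, g⟩ := hfar j (mem j (Finset.mem_filter.1 hj).1).2
        exact g) (fun j hj i hi hji => by
        obtain ⟨j1, j2⟩ := Finset.mem_filter.1 hj
        obtain ⟨m2, s2⟩ := hA j (mem j j1).1
        obtain ⟨m3, s3⟩ := hA i (mem i (Finset.mem_filter.1 hi).1).1
        obtain ⟨t, g0, g1, g2, -⟩ := hfar j (mem j j1).2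
        have e := three hα hβ s1 s2 s3 f5 (hmin j j1) hji (by rw [f1]; nlinarith) j2
          fun d h => by
            have e1 : (d : ℝ) ≤ n1 := by
              have : (d : ℝ) ≤ ⌊D⌋₊ := by exact_mod_cast Nat.lt_succ_iff.1 (hd d h)
              linarith [Nat.floor_le D0]
            have e2 : 4 * x ≤ s * c := y2.trans (by gcongr)
            rw [f1, ← hc]
            calc ((d : ℝ) + n1) * (2 * x) ≤ (n1 + n1) * (2 * x) := by gcongr
              _ = n1 * (4 * x) := by ring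
              _ < s * (4 * x) := by gcongr
              _ ≤ s * (s * c) := by gcongr; linarith
              _ = _ := by ring
        rw [g1, ← hc] at e
        rw [← g0]
        have e2 : 4 * x ≤ t * c := y2.trans (by gcongr)
        have e3 : 4 * x * t ≤ t * c * t := by gcongr; linarith
        exact le_of_mul_le_mul_left (a := 4 * x) (by linarith) (by linarith)) (not_le.1 hh)
      obtain ⟨m, hm⟩ := hA j (mem j (Finset.mem_filter.1 hj).1).1
      have h1 : j ≤ T := hm.1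
      have := tw_lt_succ k
      omega
    have := (Finset.card_le_card hsub).trans (Finset.card_union_le _ _)
    rw [Nat.card_Ico] at this
    omega
  have h3 := Finset.le_card_sdiff (Finset.range N) A
  rw [Finset.card_range] at h3
  have h4 : (A.card : ℝ) ≤ N + (⌊D⌋₊ + 1 + 2 * (k + 1)) := by exact_mod_cast (by omega)
  have h5 := Nat.ceil_lt_add_one
    (show 0 ≤ 2 * D + 16 / log ‖α‖ ^ 3 + 9 / log ‖α‖ ^ 2 + 1 by positivity)
  rw [← hN] at h5
  linarith [Nat.floor_le D0]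

lemma upperT {δ x : ℝ} (hx : 1 ≤ x) (d0 : 0 < δ) (d1 : δ ≤ 1) {T k : ℕ} (hT : T ≤ tw k) :
    (Sd α β T δ x).Finite ∧ ((Sd α β T δ x).ncard : ℝ) ≤
      (log (2 * x) / log ‖α‖ + 1) * (log (3 * x) / log ‖β‖ + 1)
        + (3 * (log (4 * x / (δ * min (log ‖β‖) 1)) / log ‖α‖)
          + (16 / log ‖α‖ ^ 3 + 9 / log ‖α‖ ^ 2 + 5) + 2 * k) * (2 * 1 / log ‖β‖ + 1) := by
  classical
  have ha := log_pos hα
  have hb := log_pos hβ
  set A := (Finset.range (T + 1)).filter fun n => ∃ m, (n, m) ∈ Sd α β T δ x with hA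
  have hc := far_card hα hβ hx d0 d1 hT A fun n hn => (Finset.mem_filter.1 hn).2
  set U := {p ∈ Sd α β T δ x | 2 * x ≤ ‖α‖ ^ p.1} with hU
  obtain ⟨u1, u2⟩ := strip' (a := log ‖α‖) hb zero_le_one A (U := U) (by
    rintro ⟨n, m⟩ ⟨h1, h3⟩
    have p0 : 0 < ‖α‖ ^ n := by positivity
    exact ⟨Finset.mem_filter.2 ⟨Finset.mem_range.2 (Nat.lt_succ_of_le h1.1), m, h1⟩,
      (re_val hα hβ n m).trans
        (le_of_mul_le_mul_right ((val_le hα hβ h1.2.2 h3).trans (by linarith)) p0)⟩)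
  set N := ⌊log (2 * x) / log ‖α‖⌋₊ + 1 with hN
  set K := ⌊log (3 * x) / log ‖β‖⌋₊ + 1 with hK
  have hsub : Sd α β T δ x ⊆
      ((Finset.range N ×ˢ Finset.range K : Finset (ℕ × ℕ)) : Set (ℕ × ℕ)) ∪ U := by
    rintro ⟨n, m⟩ h
    have h' : |‖α‖ ^ n - ‖β‖ ^ m| ≤ x := Tc_sub (show (n, m) ∈ Tc α β x from h.2.2)
    rcases le_total (‖α‖ ^ n) (2 * x) with hn | hn
    · left
      simp only [Finset.coe_product, Finset.coe_range, mem_prod, mem_Iio]
      exact ⟨(pow_le_iff hα (by linarith) _).1 hn,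
        (pow_le_iff hβ (by linarith) _).1 (by linarith [(abs_le.1 h').1])⟩
    · exact Or.inr ⟨h, hn⟩
  have hf := (Finset.finite_toSet (Finset.range N ×ˢ Finset.range K)).union u1
  refine ⟨hf.subset hsub, ?_⟩
  have h1 := (ncard_le_ncard hsub hf).trans (ncard_union_le _ _)
  rw [ncard_coe_finset, Finset.card_product, Finset.card_range, Finset.card_range] at h1
  have h2 : ((Sd α β T δ x).ncard : ℝ) ≤ N * K + U.ncard := by exact_mod_cast h1
  have l2 : 0 ≤ log (2 * x) := log_nonneg (by linarith)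
  have l3 : 0 ≤ log (3 * x) := log_nonneg (by linarith)
  have h3 : (N : ℝ) ≤ log (2 * x) / log ‖α‖ + 1 := by
    rw [hN]; push_cast; linarith [Nat.floor_le (div_nonneg l2 ha.le)]
  have h4 : (K : ℝ) ≤ log (3 * x) / log ‖β‖ + 1 := by
    rw [hK]; push_cast; linarith [Nat.floor_le (div_nonneg l3 hb.le)]
  refine h2.trans (add_le_add ?_ (u2.trans ?_)) <;> gcongr

lemma lowerT {δ y : ℝ} (hy : 1 ≤ y) (d1 : δ ≤ 1) {T : ℕ} (hT : y ≤ ‖α‖ ^ T)
    (hf : (Sd α β T δ (2 * y)).Finite) :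
    log y ^ 2 / (log ‖α‖ * log ‖β‖) ≤ (Sd α β T δ (2 * y)).ncard
      + (log y / log ‖α‖ + 1) * (2 * 1 / log ‖β‖ + 1) := by
  classical
  have ha := log_pos hα
  have hb := log_pos hβ
  have hL := log_nonneg hy
  set N := ⌊log y / log ‖α‖⌋₊ + 1 with hN
  set M := ⌊log y / log ‖β‖⌋₊ + 1 with hM
  obtain ⟨u1, u2⟩ := strip (a := log ‖α‖) hb zero_le_one N (U := {p ∈ Tc α β 1 | p.1 < N})
    fun p hp => ⟨hp.2, by
      have h1 : |‖α‖ ^ p.1 - ‖β‖ ^ p.2| ≤ 1 := Tc_sub hp.1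
      have h2 := exp_sub_ge (p.1 * log ‖α‖) (p.2 * log ‖β‖) 1 (one_le_exp (by positivity))
        (one_le_exp (by positivity))
      rw [← pow_eq_exp hα, ← pow_eq_exp hβ] at h2
      linarith⟩
  have hsub : ((Finset.range N ×ˢ Finset.range M : Finset (ℕ × ℕ)) : Set (ℕ × ℕ)) ⊆
      Sd α β T δ (2 * y) ∪ {p ∈ Tc α β 1 | p.1 < N} := by
    intro p hp
    simp only [Finset.coe_product, Finset.coe_range, mem_prod, mem_Iio] at hp
    have h1 := (pow_le_iff hα hy _).2 hp.1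
    rcases le_total ‖α ^ p.1 - β ^ p.2‖ 1 with h | h
    · exact Or.inr ⟨h, hp.1⟩
    · refine Or.inl ⟨(pow_le_pow_iff_right₀ hα).1 (h1.trans hT), d1.trans h,
        (norm_sub_le _ _).trans ?_⟩
      rw [norm_pow, norm_pow]
      linarith [(pow_le_iff hβ hy _).2 hp.2]
  have h1 := (ncard_le_ncard hsub (hf.union u1)).trans (ncard_union_le _ _)
  rw [ncard_coe_finset, Finset.card_product, Finset.card_range, Finset.card_range] at h1
  have h2 : (N : ℝ) * M ≤ (Sd α β T δ (2 * y)).ncard +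
      ({p ∈ Tc α β 1 | p.1 < N}.ncard : ℝ) := by exact_mod_cast h1
  have h3 : log y / log ‖α‖ ≤ N := by
    rw [hN]; push_cast; exact (Nat.lt_floor_add_one _).le
  have h4 : log y / log ‖β‖ ≤ M := by
    rw [hM]; push_cast; exact (Nat.lt_floor_add_one _).le
  have h5 : (N : ℝ) ≤ log y / log ‖α‖ + 1 := by
    rw [hN]; push_cast; linarith [Nat.floor_le (div_nonneg hL ha.le)]
  have h6 : log y ^ 2 / (log ‖α‖ * log ‖β‖) ≤ N * M := by
    calc _ = log y / log ‖α‖ * (log y / log ‖β‖) := by field_simp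
      _ ≤ _ := by gcongr
  have h7 : (N : ℝ) * (2 * 1 / log ‖β‖ + 1) ≤
      (log y / log ‖α‖ + 1) * (2 * 1 / log ‖β‖ + 1) := by gcongr
  linarith

theorem truncated : ∃ C : ℝ, ∀ (x δ : ℝ) (T k : ℕ), 3 ≤ x → 0 < δ → δ ≤ 1 → x ≤ ‖α‖ ^ T →
    T ≤ tw k → ∃ N : ℕ, (Sd α β T δ x).encard = N ∧
      |(N : ℝ) - log x ^ 2 / (log ‖α‖ * log ‖β‖)| ≤ C * (log (x / δ) + k) := by
  have ha := log_pos hα
  have hb := log_pos hβ
  set c := min (log ‖β‖) 1 with hc
  have c0 : 0 < c := lt_min hb one_pos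
  have c1 : c ≤ 1 := min_le_right _ _
  have l2 : 0 < log 2 := log_pos (by norm_num)
  have l3 : 0 < log 3 := log_pos (by norm_num)
  have l4 : 0 ≤ log (4 / c) := log_nonneg ((one_le_div c0).2 (by linarith))
  set W : ℝ := 2 * 1 / log ‖β‖ + 1 with hW
  set A : ℝ := (log 2 / log ‖α‖ + 1) / log ‖β‖ + (log 3 / log ‖β‖ + 1) / log ‖α‖ with hA
  set B : ℝ := (log 2 / log ‖α‖ + 1) * (log 3 / log ‖β‖ + 1)
    + (3 * (log (4 / c) / log ‖α‖) + (16 / log ‖α‖ ^ 3 + 9 / log ‖α‖ ^ 2 + 5)) * W with hB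
  set G : ℝ := 2 * log 2 / (log ‖α‖ * log ‖β‖) + (1 / log ‖α‖ + 1) * W with hG
  set H : ℝ := 3 / log ‖α‖ * W with hH
  refine ⟨A + B + G + H + 2 * W, fun x δ T k hx d0 d1 hxT hT => ?_⟩
  obtain ⟨hf, hu⟩ := upperT hα hβ (x := x) (by linarith) d0 d1 hT
  refine ⟨(Sd α β T δ x).ncard, hf.cast_ncard_eq.symm, ?_⟩
  have hl := lowerT hα hβ (y := x / 2) (by linarith) d1 (T := T) (by linarith)
    (by rwa [mul_div_cancel₀ x two_ne_zero])
  rw [mul_div_cancel₀ x two_ne_zero, log_div (by linarith) two_ne_zero, ← hW] at hl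
  have hL : 1 ≤ log x := by
    rw [le_log_iff_exp_le (by linarith)]
    linarith [exp_one_lt_d9]
  have hΛ : log x ≤ log (x / δ) := log_le_log (by linarith) (le_div_self (by linarith) d0 d1)
  have e0 : 4 * x / (δ * c) = 4 / c * (x / δ) := by field_simp
  rw [← hc, ← hW, e0, log_mul (by norm_num) (by linarith), log_mul (by norm_num) (by linarith),
    log_mul (by positivity) (by positivity)] at hu
  set Λ := log (x / δ) with hΛ'
  have e1 : ((log 2 + log x) / log ‖α‖ + 1) * ((log 3 + log x) / log ‖β‖ + 1)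
      + (3 * ((log (4 / c) + Λ) / log ‖α‖) + (16 / log ‖α‖ ^ 3 + 9 / log ‖α‖ ^ 2 + 5) + 2 * k) * W
      = log x ^ 2 / (log ‖α‖ * log ‖β‖) + (A * log x + B + H * Λ + 2 * W * k) := by
    rw [hA, hB, hH]; field_simp; ring
  rw [e1] at hu
  have w0 : 0 ≤ W := by positivity
  have A0 : 0 ≤ A := by positivity
  have B0 : 0 ≤ B := by positivity
  have G0 : 0 ≤ G := by positivity
  have H0 : 0 ≤ H := by positivity
  have k0 : (0 : ℝ) ≤ k := Nat.cast_nonneg k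
  have e6 : (log x - log 2) ^ 2 / (log ‖α‖ * log ‖β‖) = log x ^ 2 / (log ‖α‖ * log ‖β‖)
      - 2 * log 2 / (log ‖α‖ * log ‖β‖) * log x + log 2 ^ 2 / (log ‖α‖ * log ‖β‖) := by ring
  have e7 : 0 ≤ log 2 ^ 2 / (log ‖α‖ * log ‖β‖) := by positivity
  have e8 : ((log x - log 2) / log ‖α‖ + 1) * W ≤ (1 / log ‖α‖ + 1) * log x * W := by
    have : (log x - log 2) / log ‖α‖ ≤ log x / log ‖α‖ := by gcongr; linarith
    have e : (1 / log ‖α‖ + 1) * log x = log x / log ‖α‖ + log x := by ring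
    gcongr
    linarith
  have e9 : G * log x = 2 * log 2 / (log ‖α‖ * log ‖β‖) * log x
      + (1 / log ‖α‖ + 1) * log x * W := by rw [hG]; ring
  clear_value A B G H W Λ
  have f1 : A * log x ≤ A * Λ := by gcongr
  have f2 : B ≤ B * Λ := le_mul_of_one_le_right B0 (hL.trans hΛ)
  have f3 : G * log x ≤ G * Λ := by gcongr
  have Λ0 : 0 ≤ Λ := by linarith
  have f4 : (A + B + G + H + 2 * W) * (Λ + k) = A * Λ + B * Λ + G * Λ + H * Λ + 2 * (W * Λ)
      + (A + B + G + H) * k + 2 * W * k := by ring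
  have f5 : 0 ≤ (A + B + G + H) * k := by positivity
  have f6 : 0 ≤ W * Λ := by positivity
  have f7 : 0 ≤ A * Λ := by positivity
  have f8 : 0 ≤ H * Λ := by positivity
  have f9 : 0 ≤ G * Λ := by positivity
  have f10 : 0 ≤ 2 * W * k := by positivity
  exact abs_le.2 ⟨by linarith, by linarith⟩

end

end Pool.Agent.Lib.MP_606be1_nt.TR
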